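import Mathlib

/-!
# MP_6004b5_an: a compact set whose area is increased more by a univalent harmonic self-map of the
disk than by any conformal automorphism
-/

namespace Pool.Agent.Results.MP_6004b5_an.HarmonicBeatsMobius

open MeasureTheory Set Metric Complex
open scoped ENNReal ComplexConjugate

/-- The class `𝓗` of sense-preserving univalent harmonic self-mappings `f = h + conj g` of the unit
disk. -/
def ClassH (f : ℂ → ℂ) : Prop :=
  (∃ h g : ℂ → ℂ, DifferentiableOn ℂ h (ball 0 1) ∧ DifferentiableOn ℂ g (ball 0 1) ∧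
    (∀ z ∈ ball (0 : ℂ) 1, f z = h z + conj (g z)) ∧
    ∀ z ∈ ball (0 : ℂ) 1, 0 < ‖deriv h z‖ ^ 2 - ‖deriv g z‖ ^ 2) ∧
  InjOn f (ball 0 1) ∧ MapsTo f (ball 0 1) (ball 0 1)

/-- The conformal automorphism `z ↦ e^{iθ} (z - a) / (1 - conj a * z)`. -/
noncomputable def aut (θ : ℝ) (a : ℂ) (z : ℂ) : ℂ :=
  exp (θ * I) * ((z - a) / (1 - conj a * z))

/-- The compact set. -/
def E : Set ℂ := {z | ‖z‖ ^ 2 ≤ 1 / 6 ∧ 1 / 8 ≤ (z ^ 2).re}

/-- The harmonic map. -/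
noncomputable def f (z : ℂ) : ℂ := (80 * z + 9 * z ^ 3 - 9 * conj z) / 82

/-- The real-linear map `w ↦ α w + β conj w`. -/
noncomputable def A (α β : ℂ) : ℂ →L[ℝ] ℂ :=
  α • (ContinuousLinearMap.id ℝ ℂ) + β • (conjCLE : ℂ →L[ℝ] ℂ)

lemma A_apply (α β w : ℂ) : A α β w = α * w + β * conj w := by simp [A]

lemma det_A (α β : ℂ) : (A α β).det = ‖α‖ ^ 2 - ‖β‖ ^ 2 := by
  have h1 : (A α β).det = LinearMap.det ((A α β : ℂ →L[ℝ] ℂ) : ℂ →ₗ[ℝ] ℂ) := rfl
  rw [h1, ← LinearMap.det_toMatrix Complex.basisOneI, Matrix.det_fin_two]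
  simp only [LinearMap.toMatrix_apply, Complex.coe_basisOneI_repr, Complex.coe_basisOneI]
  simp only [Matrix.cons_val_zero, Matrix.cons_val_one, ContinuousLinearMap.coe_coe, A_apply,
    Complex.sq_norm, Complex.normSq_apply]
  simp
  ring

lemma isCompact_E : IsCompact E := by
  have hc1 : Continuous fun z : ℂ => ‖z‖ ^ 2 := by fun_prop
  have hc2 : Continuous fun z : ℂ => (z ^ 2).re := Complex.continuous_re.comp (by fun_prop)
  have hcl : IsClosed E := (isClosed_le hc1 continuous_const).inter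
    (isClosed_le continuous_const hc2)
  refine (isCompact_closedBall (0 : ℂ) 1).of_isClosed_subset hcl fun z hz => ?_
  rw [mem_closedBall_zero_iff]
  have := hz.1
  nlinarith [norm_nonneg z]

lemma norm_lt_one {z : ℂ} (hz : z ∈ E) : ‖z‖ < 1 := by
  have := hz.1
  nlinarith [norm_nonneg z]

lemma E_subset : E ⊆ ball 0 1 := fun z hz => by
  rw [mem_ball_zero_iff]
  exact norm_lt_one hz

lemma neg_mem {z : ℂ} : -z ∈ E ↔ z ∈ E := by simp [E]

lemma volume_E_pos : 0 < volume E := by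
  have hc1 : Continuous fun z : ℂ => ‖z‖ ^ 2 := by fun_prop
  have hc2 : Continuous fun z : ℂ => (z ^ 2).re := Complex.continuous_re.comp (by fun_prop)
  have hopen : IsOpen {z : ℂ | ‖z‖ ^ 2 < 1 / 6 ∧ 1 / 8 < (z ^ 2).re} :=
    (isOpen_lt hc1 continuous_const).inter (isOpen_lt continuous_const hc2)
  have hne : ((3 / 8 : ℝ) : ℂ) ∈ {z : ℂ | ‖z‖ ^ 2 < 1 / 6 ∧ 1 / 8 < (z ^ 2).re} := by
    constructor
    · rw [Complex.norm_real, Real.norm_eq_abs, sq_abs]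
      norm_num
    · rw [← Complex.ofReal_pow, Complex.ofReal_re]
      norm_num
  exact (hopen.measure_pos volume ⟨_, hne⟩).trans_le
    (measure_mono fun z hz => ⟨hz.1.le, hz.2.le⟩)

lemma volume_E_lt_top : volume E < ∞ := isCompact_E.measure_lt_top

/-! ### The automorphisms -/

lemma denom_ne_zero {a z : ℂ} (ha : ‖a‖ < 1) (hz : ‖z‖ < 1) : 1 - conj a * z ≠ 0 := by
  intro h
  have h1 : ‖conj a * z‖ = 1 := by
    have : conj a * z = 1 := by linear_combination -h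
    rw [this, norm_one]
  rw [norm_mul, Complex.norm_conj] at h1
  nlinarith [norm_nonneg a, norm_nonneg z]

lemma hasDerivAt_aut {θ : ℝ} {a z : ℂ} (ha : ‖a‖ < 1) (hz : ‖z‖ < 1) :
    HasDerivAt (aut θ a) (exp (θ * I) * ((1 - ‖a‖ ^ 2 : ℝ) / (1 - conj a * z) ^ 2)) z := by
  have hd := denom_ne_zero ha hz
  have h1 : HasDerivAt (fun z : ℂ => z - a) 1 z := (hasDerivAt_id z).sub_const a
  have h2 : HasDerivAt (fun z : ℂ => 1 - conj a * z) (-(conj a)) z := by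
    simpa using ((hasDerivAt_id z).const_mul (conj a)).const_sub 1
  refine ((h1.div h2 hd).const_mul (exp (θ * I))).congr_deriv ?_
  congr 2
  have h3 : ((1 - ‖a‖ ^ 2 : ℝ) : ℂ) = 1 - conj a * a := by
    push_cast
    rw [Complex.conj_mul']
  rw [h3]
  ring

lemma aut_injOn {θ : ℝ} {a : ℂ} (ha : ‖a‖ < 1) : InjOn (aut θ a) E := by
  intro z hz w hw h
  have hdz := denom_ne_zero ha (norm_lt_one hz)
  have hdw := denom_ne_zero ha (norm_lt_one hw)
  unfold aut at h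
  have h1 := mul_left_cancel₀ (Complex.exp_ne_zero _) h
  rw [div_eq_div_iff hdz hdw] at h1
  have h2 : (1 - conj a * a) * (z - w) = 0 := by linear_combination h1
  have h3 : (1 - conj a * a : ℂ) ≠ 0 := by
    rw [Complex.conj_mul']
    intro h4
    have h5 : (1 - ‖a‖ ^ 2 : ℝ) = 0 := by exact_mod_cast h4
    nlinarith [norm_nonneg a]
  rcases mul_eq_zero.mp h2 with h | h
  · exact absurd h h3
  · exact sub_eq_zero.mp h

lemma volume_aut {θ : ℝ} {a : ℂ} (ha : ‖a‖ < 1) :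
    volume (aut θ a '' E) =
      ∫⁻ z in E, ENNReal.ofReal ((1 - ‖a‖ ^ 2) ^ 2 / ‖1 - conj a * z‖ ^ 4) := by
  have h1 : ∀ z ∈ E, HasFDerivWithinAt (aut θ a)
      (A (exp (θ * I) * ((1 - ‖a‖ ^ 2 : ℝ) / (1 - conj a * z) ^ 2)) 0) E z := by
    intro z hz
    have h2 := (hasDerivAt_aut (θ := θ) ha (norm_lt_one hz)).hasFDerivAt.restrictScalars ℝ
    refine (h2.congr_fderiv ?_).hasFDerivWithinAt
    ext w
    simp [A_apply, mul_comm]
  rw [← lintegral_abs_det_fderiv_eq_addHaar_image volume isCompact_E.measurableSet h1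
    (aut_injOn ha)]
  refine setLIntegral_congr_fun isCompact_E.measurableSet fun z hz => ?_
  rw [det_A]
  congr 1
  rw [norm_zero, zero_pow two_ne_zero, sub_zero, abs_of_nonneg (by positivity), norm_mul,
    Complex.norm_exp_ofReal_mul_I, one_mul, norm_div, norm_pow, div_pow, Complex.norm_real,
    Real.norm_eq_abs, sq_abs]
  ring

lemma two_point {a z : ℂ} (ha : ‖a‖ < 1) (hz : z ∈ E) :
    (1 - ‖a‖ ^ 2) ^ 2 / ‖1 - conj a * z‖ ^ 4 + (1 - ‖a‖ ^ 2) ^ 2 / ‖1 - conj a * -z‖ ^ 4 ≤ 2 := by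
  obtain ⟨t, ht⟩ : ∃ t, conj a * z = t := ⟨_, rfl⟩
  rw [mul_neg, sub_neg_eq_add, ht]
  obtain ⟨x, hx⟩ : ∃ x, ‖a‖ ^ 2 = x := ⟨_, rfl⟩
  obtain ⟨T, hT⟩ : ∃ T, ‖t‖ ^ 2 = T := ⟨_, rfl⟩
  obtain ⟨P, hP⟩ : ∃ P, ‖1 - t‖ ^ 2 = P := ⟨_, rfl⟩
  obtain ⟨Q, hQ⟩ : ∃ Q, ‖1 + t‖ ^ 2 = Q := ⟨_, rfl⟩
  have hx0 : 0 ≤ x := by rw [← hx]; positivity
  have hx1 : x < 1 := by rw [← hx]; nlinarith [norm_nonneg a]
  have hT0 : 0 ≤ T := by rw [← hT]; positivity
  have hTx : T ≤ x / 6 := by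
    have h1 : T = x * ‖z‖ ^ 2 := by
      rw [← hT, ← ht, norm_mul, Complex.norm_conj, mul_pow, hx]
    rw [h1]
    nlinarith [hz.1]
  have hPQ : P + Q = 2 + 2 * T := by
    have := parallelogram_law_with_norm ℝ (1 : ℂ) t
    rw [norm_one] at this
    rw [← hP, ← hQ, ← hT]
    nlinarith
  have hm : (1 - T) ^ 2 ≤ P * Q := by
    have h1 : P * Q = ‖1 - t ^ 2‖ ^ 2 := by
      rw [← hP, ← hQ, ← mul_pow, ← norm_mul]
      congr 2
      ring
    have h2 : 1 - T ≤ ‖1 - t ^ 2‖ := by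
      have := norm_sub_norm_le (1 : ℂ) (t ^ 2)
      rw [norm_one, norm_pow, hT] at this
      exact this
    rw [h1]
    have h3 : 0 ≤ 1 - T := by linarith
    gcongr
  have hm0 : 0 < P * Q := lt_of_lt_of_le (by
    have : 0 < 1 - T := by linarith
    positivity) hm
  have hP0 : 0 < P := by
    have h1 : 0 ≤ P := by rw [← hP]; positivity
    rcases h1.eq_or_lt with h | h
    · rw [← h, zero_mul] at hm0
      exact absurd hm0 (lt_irrefl _)
    · exact h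
  have hQ0 : 0 < Q := by
    have h1 : 0 ≤ Q := by rw [← hQ]; positivity
    rcases h1.eq_or_lt with h | h
    · rw [← h, mul_zero] at hm0
      exact absurd hm0 (lt_irrefl _)
    · exact h
  have e1 : ‖1 - t‖ ^ 4 = P ^ 2 := by rw [← hP]; ring
  have e2 : ‖1 + t‖ ^ 4 = Q ^ 2 := by rw [← hQ]; ring
  rw [hx, e1, e2, div_add_div _ _ (by positivity) (by positivity), div_le_iff₀ (by positivity)]
  -- the polynomial inequality
  have hb : (1 - x) ^ 2 * (1 + 6 * T + T ^ 2) ≤ (1 - T) ^ 4 := by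
    have h1 : (1 - x) ^ 2 * (1 + 6 * T + T ^ 2) ≤ (1 - x) ^ 2 * (1 + x + x ^ 2 / 36) := by
      have : 6 * T + T ^ 2 ≤ x + x ^ 2 / 36 := by nlinarith
      have h2 : 0 ≤ (1 - x) ^ 2 := sq_nonneg _
      nlinarith
    have h2 : (1 - x) ^ 2 * (1 + x + x ^ 2 / 36) ≤ 1 - x := by
      have h3 : (1 - x) * (1 + x + x ^ 2 / 36) ≤ 1 := by nlinarith [sq_nonneg x, pow_nonneg hx0 3]
      have h4 : 0 ≤ 1 - x := by linarith
      nlinarith
    have h3 : 1 - 4 * T ≤ (1 - T) ^ 4 := by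
      have := one_add_mul_le_pow (a := -T) (by linarith) 4
      have e : (1 + -T) ^ 4 = (1 - T) ^ 4 := by ring
      rw [e] at this
      push_cast at this
      linarith
    linarith
  have hT1 : 0 < 1 - T := by linarith
  have e3 : (1 - x) ^ 2 * Q ^ 2 + P ^ 2 * (1 - x) ^ 2 =
      (1 - x) ^ 2 * (4 * (1 + T) ^ 2 - 2 * (P * Q)) := by
    have : P ^ 2 + Q ^ 2 = (2 + 2 * T) ^ 2 - 2 * (P * Q) := by rw [← hPQ]; ring
    linear_combination (1 - x) ^ 2 * this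
  rw [e3]
  have h5 : (1 - x) ^ 2 * (4 * (1 + T) ^ 2 - 2 * (P * Q)) ≤
      (1 - x) ^ 2 * (4 * (1 + T) ^ 2 - 2 * (1 - T) ^ 2) := by
    apply mul_le_mul_of_nonneg_left _ (sq_nonneg _)
    linarith
  have h6 : (1 - x) ^ 2 * (4 * (1 + T) ^ 2 - 2 * (1 - T) ^ 2) =
      2 * ((1 - x) ^ 2 * (1 + 6 * T + T ^ 2)) := by ring
  have h7 : (1 - T) ^ 4 ≤ P ^ 2 * Q ^ 2 := by
    have : ((1 - T) ^ 2) ^ 2 ≤ (P * Q) ^ 2 := by gcongr
    nlinarith
  linarith

/-- Every automorphism satisfies `m(φ(E)) ≤ m(E)`. -/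
theorem volume_aut_le (θ : ℝ) {a : ℂ} (ha : ‖a‖ < 1) : volume (aut θ a '' E) ≤ volume E := by
  have hmeas : Measurable fun z : ℂ =>
      ENNReal.ofReal ((1 - ‖a‖ ^ 2) ^ 2 / ‖1 - conj a * z‖ ^ 4) := by fun_prop
  have hE := isCompact_E.measurableSet
  have hsym : ∫⁻ z in E, ENNReal.ofReal ((1 - ‖a‖ ^ 2) ^ 2 / ‖1 - conj a * -z‖ ^ 4) =
      ∫⁻ z in E, ENNReal.ofReal ((1 - ‖a‖ ^ 2) ^ 2 / ‖1 - conj a * z‖ ^ 4) := by
    have h1 := (Measure.measurePreserving_neg (volume : Measure ℂ)).setLIntegral_comp_preimage hE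
      hmeas
    have h2 : (fun z : ℂ => -z) ⁻¹' E = E := by
      ext z
      exact neg_mem
    rw [h2] at h1
    exact h1
  have h1 : 2 * volume (aut θ a '' E) ≤ 2 * volume E := by
    rw [two_mul, volume_aut ha]
    nth_rw 1 [← hsym]
    rw [← lintegral_add_right _ hmeas]
    calc ∫⁻ z in E, (ENNReal.ofReal ((1 - ‖a‖ ^ 2) ^ 2 / ‖1 - conj a * -z‖ ^ 4) +
          ENNReal.ofReal ((1 - ‖a‖ ^ 2) ^ 2 / ‖1 - conj a * z‖ ^ 4))
        ≤ ∫⁻ _z in E, 2 := by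
          apply setLIntegral_mono measurable_const
          intro z hz
          rw [← ENNReal.ofReal_add (by positivity) (by positivity)]
          calc _ ≤ ENNReal.ofReal 2 := ENNReal.ofReal_le_ofReal (by
                have := two_point ha hz
                linarith)
            _ = 2 := by simp
      _ = 2 * volume E := by simp
  exact (ENNReal.mul_le_mul_iff_right (by norm_num) (by norm_num)).mp h1

/-! ### The harmonic map -/

lemma f_injOn : InjOn f (ball 0 1) := by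
  intro z hz w hw h
  rw [mem_ball_zero_iff] at hz hw
  unfold f at h
  have h1 : 80 * (z - w) = 9 * (conj z - conj w) - 9 * ((z ^ 2 + z * w + w ^ 2) * (z - w)) := by
    linear_combination 82 * h
  by_contra hne
  have hpos : 0 < ‖z - w‖ := norm_pos_iff.mpr (sub_ne_zero.mpr hne)
  have h2 : ‖80 * (z - w)‖ ≤ 9 * ‖z - w‖ + 9 * (3 * ‖z - w‖) := by
    rw [h1]
    refine (norm_sub_le _ _).trans (add_le_add ?_ ?_)
    · rw [norm_mul, ← map_sub, Complex.norm_conj]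
      simp
    · rw [norm_mul, norm_mul]
      have h3 : ‖z ^ 2 + z * w + w ^ 2‖ ≤ 3 := by
        calc ‖z ^ 2 + z * w + w ^ 2‖ ≤ ‖z ^ 2‖ + ‖z * w‖ + ‖w ^ 2‖ := norm_add₃_le
          _ = ‖z‖ ^ 2 + ‖z‖ * ‖w‖ + ‖w‖ ^ 2 := by rw [norm_pow, norm_mul, norm_pow]
          _ ≤ 1 + 1 + 1 := by nlinarith [norm_nonneg z, norm_nonneg w]
          _ = 3 := by norm_num
      have h9 : ‖(9 : ℂ)‖ = 9 := by simp
      rw [h9]
      gcongr
  rw [norm_mul] at h2
  have h80 : ‖(80 : ℂ)‖ = 80 := by simp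
  rw [h80] at h2
  linarith

lemma f_mapsTo : MapsTo f (ball 0 1) (ball 0 1) := by
  intro z hz
  rw [mem_ball_zero_iff] at hz ⊢
  have hz2 : ‖z‖ ^ 2 < 1 := by nlinarith [norm_nonneg z]
  have h1 : ‖80 * z + 9 * z ^ 3 - 9 * conj z‖ ^ 2 < 82 ^ 2 := by
    rw [Complex.sq_norm, Complex.normSq_apply] at hz2 ⊢
    obtain ⟨x, hx⟩ : ∃ x, z.re = x := ⟨_, rfl⟩
    obtain ⟨y, hy⟩ : ∃ y, z.im = y := ⟨_, rfl⟩
    have e1 : (80 * z + 9 * z ^ 3 - 9 * conj z).re = 71 * x + 9 * (x ^ 3 - 3 * x * y ^ 2) := by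
      simp [pow_succ, hx, hy]
      ring
    have e2 : (80 * z + 9 * z ^ 3 - 9 * conj z).im = 89 * y + 9 * (3 * x ^ 2 * y - y ^ 3) := by
      simp [pow_succ, hx, hy]
      ring
    rw [e1, e2]
    rw [hx, hy] at hz2
    obtain ⟨ρ, hρ⟩ : ∃ ρ, x * x + y * y = ρ := ⟨_, rfl⟩
    have e3 : (71 * x + 9 * (x ^ 3 - 3 * x * y ^ 2)) * (71 * x + 9 * (x ^ 3 - 3 * x * y ^ 2)) +
        (89 * y + 9 * (3 * x ^ 2 * y - y ^ 3)) * (89 * y + 9 * (3 * x ^ 2 * y - y ^ 3)) =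
        6400 * ρ - 1440 * (x ^ 2 - y ^ 2) * (1 - ρ) + 81 * ρ * (1 - ρ) ^ 2 +
          324 * (2 * x * y) ^ 2 := by
      rw [← hρ]
      ring
    rw [e3]
    rw [hρ] at hz2
    have hρ0 : 0 ≤ ρ := by rw [← hρ]; nlinarith [mul_self_nonneg x, mul_self_nonneg y]
    have h2 : -(x ^ 2 - y ^ 2) * (1 - ρ) ≤ ρ * (1 - ρ) := by
      apply mul_le_mul_of_nonneg_right _ (by linarith)
      rw [← hρ]
      nlinarith [mul_self_nonneg x]
    have h3 : (2 * x * y) ^ 2 ≤ ρ ^ 2 := by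
      rw [← hρ]
      nlinarith [sq_nonneg (x ^ 2 - y ^ 2)]
    have h4 : 0 < (1 - ρ) * (6724 - 1197 * ρ + 81 * ρ ^ 2) := by
      apply mul_pos (by linarith)
      nlinarith [sq_nonneg ρ]
    nlinarith
  have h5 : ‖80 * z + 9 * z ^ 3 - 9 * conj z‖ < 82 :=
    lt_of_pow_lt_pow_left₀ 2 (by norm_num) h1
  unfold f
  rw [norm_div]
  have h82 : ‖(82 : ℂ)‖ = 82 := by simp
  rw [h82, div_lt_one (by norm_num)]
  exact h5

lemma classH_f : ClassH f := by
  have hh : ∀ z : ℂ, HasDerivAt (fun z : ℂ => (80 * z + 9 * z ^ 3) / 82)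
      ((80 + 27 * z ^ 2) / 82) z := by
    intro z
    refine ((((hasDerivAt_id z).const_mul 80).add ((hasDerivAt_pow 3 z).const_mul 9)).div_const
      82).congr_deriv ?_
    simp
    ring
  have hg : ∀ z : ℂ, HasDerivAt (fun z : ℂ => (-9 / 82) * z) (-9 / 82) z := by
    intro z
    simpa using (hasDerivAt_id z).const_mul (-9 / 82 : ℂ)
  refine ⟨⟨fun z => (80 * z + 9 * z ^ 3) / 82, fun z => (-9 / 82) * z,
    fun z _ => (hh z).differentiableAt.differentiableWithinAt,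
    fun z _ => (hg z).differentiableAt.differentiableWithinAt, fun z _ => ?_, fun z hz => ?_⟩,
    f_injOn, f_mapsTo⟩
  · have e9 : conj (9 : ℂ) = 9 := Complex.conj_ofNat 9
    have e82 : conj (82 : ℂ) = 82 := Complex.conj_ofNat 82
    simp only [f, map_mul, map_div₀, map_neg, e9, e82]
    ring
  · rw [mem_ball_zero_iff] at hz
    rw [(hh z).deriv, (hg z).deriv]
    have h1 : 53 ≤ ‖80 + 27 * z ^ 2‖ := by
      have h2 := norm_sub_norm_le (80 : ℂ) (-(27 * z ^ 2))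
      rw [sub_neg_eq_add, norm_neg, norm_mul, norm_pow] at h2
      have h80 : ‖(80 : ℂ)‖ = 80 := by simp
      have h27 : ‖(27 : ℂ)‖ = 27 := by simp
      rw [h80, h27] at h2
      have h3 : ‖z‖ ^ 2 ≤ 1 := by nlinarith [norm_nonneg z]
      linarith
    have h82 : ‖(82 : ℂ)‖ = 82 := by simp
    have h9 : ‖(-9 / 82 : ℂ)‖ = 9 / 82 := by
      rw [norm_div, norm_neg, h82]
      simp
    rw [h9, norm_div, h82]
    have h4 : (53 / 82 : ℝ) ≤ ‖80 + 27 * z ^ 2‖ / 82 := by gcongr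
    have h5 : (53 / 82 : ℝ) ^ 2 ≤ (‖80 + 27 * z ^ 2‖ / 82) ^ 2 := by gcongr
    norm_num at h5 ⊢
    linarith

lemma hasFDerivAt_f (z : ℂ) : HasFDerivAt f (A ((80 + 27 * z ^ 2) / 82) (-9 / 82)) z := by
  have hh : HasDerivAt (fun z : ℂ => (80 * z + 9 * z ^ 3) / 82) ((80 + 27 * z ^ 2) / 82) z := by
    refine ((((hasDerivAt_id z).const_mul 80).add ((hasDerivAt_pow 3 z).const_mul 9)).div_const
      82).congr_deriv ?_
    simp
    ring
  have h1 := hh.hasFDerivAt.restrictScalars ℝ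
  have h2 : HasFDerivAt (fun z : ℂ => (-9 / 82 : ℂ) • conj z)
      ((-9 / 82 : ℂ) • (conjCLE : ℂ →L[ℝ] ℂ)) z :=
    (conjCLE : ℂ →L[ℝ] ℂ).hasFDerivAt.const_smul (-9 / 82 : ℂ)
  have h3 := h1.add h2
  have e : f = (fun z : ℂ => (80 * z + 9 * z ^ 3) / 82) + fun z : ℂ => (-9 / 82 : ℂ) • conj z := by
    ext1 w
    simp [f]
    ring
  rw [e]
  refine h3.congr_fderiv ?_
  ext w
  simp [A, mul_comm]

theorem volume_lt_volume_f : volume E < volume (f '' E) := by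
  have hE := isCompact_E.measurableSet
  rw [← lintegral_abs_det_fderiv_eq_addHaar_image volume hE
    (fun z _ => (hasFDerivAt_f z).hasFDerivWithinAt) (f_injOn.mono E_subset)]
  have h1 : ENNReal.ofReal (51 / 50) * volume E ≤
      ∫⁻ z in E, ENNReal.ofReal |(A ((80 + 27 * z ^ 2) / 82) (-9 / 82)).det| := by
    rw [← setLIntegral_const]
    apply setLIntegral_mono' hE
    intro z hz
    apply ENNReal.ofReal_le_ofReal
    refine le_trans ?_ (le_abs_self _)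
    rw [det_A]
    have h2 : (667 / 8 : ℝ) ≤ ‖80 + 27 * z ^ 2‖ := by
      have h3 : (80 + 27 * z ^ 2).re ≤ ‖80 + 27 * z ^ 2‖ := Complex.re_le_norm _
      have h4 : (80 + 27 * z ^ 2).re = 80 + 27 * (z ^ 2).re := by simp
      rw [h4] at h3
      have := hz.2
      linarith
    have h82 : ‖(82 : ℂ)‖ = 82 := by simp
    have h9 : ‖(-9 / 82 : ℂ)‖ = 9 / 82 := by
      rw [norm_div, norm_neg, h82]
      simp
    rw [h9, norm_div, h82]
    have h4 : (667 / 8 / 82 : ℝ) ≤ ‖80 + 27 * z ^ 2‖ / 82 := by gcongr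
    have h5 : (667 / 8 / 82 : ℝ) ^ 2 ≤ (‖80 + 27 * z ^ 2‖ / 82) ^ 2 := by gcongr
    norm_num at h5 ⊢
    linarith
  refine lt_of_lt_of_le ?_ h1
  have h2 : (1 : ℝ≥0∞) < ENNReal.ofReal (51 / 50) := by
    rw [← ENNReal.ofReal_one]
    exact (ENNReal.ofReal_lt_ofReal_iff (by norm_num)).mpr (by norm_num)
  calc volume E = 1 * volume E := (one_mul _).symm
    _ < ENNReal.ofReal (51 / 50) * volume E :=
        (ENNReal.mul_lt_mul_iff_left volume_E_pos.ne' volume_E_lt_top.ne).mpr h2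

/-- There are a compact set `E ⊆ 𝔻` of positive area and a sense-preserving univalent harmonic
self-map `f` of the disk such that `m(φ(E)) ≤ m(E) < m(f(E))` for every conformal automorphism
`φ` of the disk. -/
theorem result : ∃ E : Set ℂ, IsCompact E ∧ E ⊆ ball 0 1 ∧ ∃ f : ℂ → ℂ, ClassH f ∧
    ∀ (θ : ℝ) (a : ℂ), ‖a‖ < 1 →
      volume (aut θ a '' E) ≤ volume E ∧ volume E < volume (f '' E) :=
  ⟨E, isCompact_E, E_subset, f, classH_f, fun θ _ ha => ⟨volume_aut_le θ ha, volume_lt_volume_f⟩⟩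

end Pool.Agent.Results.MP_6004b5_an.HarmonicBeatsMobius
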